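import Pool.Agent.Q31.GLW.Stm

/-!
# GLW: the statement RS (Rasiowa-Sikorski)
-/

set_option autoImplicit false

namespace Pool.Agent.Q294.GLW

open Module Cardinal Submodule Pool.Agent.Q31.GLW

section
variable {F V : Type} [Field F] [AddCommGroup V] [Module F V]

theorem side_mono {p q : V →ₗ.[F] V} (h : p ≤ q) (e : Bool) : side p e ≤ side q e := by
  cases e with
  | true => exact h.1
  | false =>
    rintro _ ⟨x, rfl⟩
    exact ⟨⟨(x : V), h.1 x.2⟩, (h.2 (x := x) (y := ⟨(x : V), h.1 x.2⟩) rfl).symm⟩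

theorem extend (hADD : S_ADD) (hICS : S_ICS) {U : Submodule F V} {g : U ≃ₗ[F] U} (hU : IC U)
    (p : V →ₗ.[F] V) (hp : Cond U g p) (e : Bool) (v : V) :
    ∃ q : V →ₗ.[F] V, Cond U g q ∧ p ≤ q ∧ v ∈ side q e := by
  by_cases hv : v ∈ side p e
  · exact ⟨p, hp, le_rfl, hv⟩
  have h1 := hICS F V U g p ⊥ hU hp inferInstance
  obtain ⟨z, hz⟩ : ∃ z : V, z ∉ side p true ⊔ side p false ⊔ (⊥ : Submodule F V) := by
    by_contra hcon
    push Not at hcon
    apply h1
    have h2 : side p true ⊔ side p false ⊔ (⊥ : Submodule F V) = ⊤ := by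
      rw [Submodule.eq_top_iff']
      exact hcon
    rw [h2]
    infer_instance
  have hz' : z ∉ side p (!e) := by
    intro h
    apply hz
    rw [sup_bot_eq]
    cases e with
    | true => exact le_sup_right (a := side p true) h
    | false => exact le_sup_left (a := side p true) h
  obtain ⟨q, h2, h3, h4, -, -⟩ := hADD F V U g p e v z hp hv hz'
  refine ⟨q, h2, h3, ?_⟩
  rw [h4]
  exact le_sup_right (a := side p e) (mem_span_singleton_self v)

theorem start (U : Submodule F V) (g : U ≃ₗ[F] U) :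
    Cond U g ⟨U, U.subtype ∘ₗ (g : U →ₗ[F] U)⟩ := by
  refine ⟨fun x hx => ?_, ⟨⊥, inferInstance, (sup_bot_eq U).symm⟩, fun u x hx => ?_⟩
  · have h1 : ((g x : U) : V) = 0 := hx
    have h2 : g x = 0 := Subtype.ext h1
    rw [LinearEquiv.map_eq_zero_iff] at h2
    exact congrArg Subtype.val h2
  · have h1 : x = u := Subtype.ext hx
    subst h1
    rfl

end

theorem t_RS (hADD : S_ADD) (hICS : S_ICS) : S_RS := by
  intro F V _ _ _ _ U g hU D hD
  obtain ⟨f, hf⟩ := exists_surjective_nat V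
  have step : ∀ (n : ℕ) (p : {p : V →ₗ.[F] V // Cond U g p}),
      ∃ p' : {p : V →ₗ.[F] V // Cond U g p}, p.1 ≤ p'.1 ∧ f n ∈ side p'.1 true ∧
        f n ∈ side p'.1 false ∧ ∃ q ∈ D n, q ≤ p'.1 := by
    rintro n ⟨p, hp⟩
    obtain ⟨q, hq, h1, h2⟩ := hD n p hp
    obtain ⟨q', h3, h4, h5⟩ := extend hADD hICS hU q h1 true (f n)
    obtain ⟨q'', h6, h7, h8⟩ := extend hADD hICS hU q' h3 false (f n)
    exact ⟨⟨q'', h6⟩, h2.trans (h4.trans h7), side_mono h7 true h5, h8, q, hq, h4.trans h7⟩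
  choose nx hnx1 hnx2 hnx3 hnx4 using step
  let P : ℕ → {p : V →ₗ.[F] V // Cond U g p} :=
    fun n => Nat.rec ⟨_, start U g⟩ (fun n p => nx n p) n
  have hP : ∀ n, P (n + 1) = nx n (P n) := fun n => rfl
  have hmono : Monotone fun n => (P n).1 := monotone_nat_of_le_succ fun n => hnx1 n (P n)
  have hdom : ∀ v : V, ∃ n, v ∈ (P n).1.domain := by
    intro v
    obtain ⟨n, rfl⟩ := hf v
    exact ⟨n + 1, hnx2 n (P n)⟩
  have hran : ∀ v : V, ∃ (n : ℕ) (x : (P n).1.domain), (P n).1 x = v := by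
    intro v
    obtain ⟨n, rfl⟩ := hf v
    obtain ⟨x, hx⟩ := hnx3 n (P n)
    exact ⟨n + 1, x, hx⟩
  choose N hN using hdom
  -- the union
  have key : ∀ (v : V) (n : ℕ) (x : (P n).1.domain), (x : V) = v →
      (P (N v)).1 ⟨v, hN v⟩ = (P n).1 x := by
    intro v n x hx
    subst hx
    rcases le_total (N (x : V)) n with h | h
    · exact (hmono h).2 rfl
    · exact ((hmono h).2 rfl).symm
  let h0 : V →ₗ[F] V :=
    { toFun := fun v => (P (N v)).1 ⟨v, hN v⟩
      map_add' := by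
        intro v w
        let m := max (N v) (N w)
        have hv : v ∈ (P m).1.domain := (hmono (le_max_left (N v) (N w))).1 (hN v)
        have hw : w ∈ (P m).1.domain := (hmono (le_max_right (N v) (N w))).1 (hN w)
        rw [key v m ⟨v, hv⟩ rfl, key w m ⟨w, hw⟩ rfl,
          key (v + w) m (⟨v, hv⟩ + ⟨w, hw⟩) rfl, LinearPMap.map_add]
      map_smul' := by
        intro c v
        rw [key (c • v) (N v) (c • ⟨v, hN v⟩) rfl, LinearPMap.map_smul]
        rfl }
  have h0x : ∀ n (x : (P n).1.domain), h0 (x : V) = (P n).1 x := fun n x => key x n x rfl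
  have hinj : Function.Injective h0 := by
    rw [injective_iff_map_eq_zero]
    intro v hv
    exact (P (N v)).2.1 ⟨v, hN v⟩ hv
  have hsurj : Function.Surjective h0 := by
    intro v
    obtain ⟨n, x, hx⟩ := hran v
    exact ⟨x, (h0x n x).trans hx⟩
  refine ⟨LinearEquiv.ofBijective h0 ⟨hinj, hsurj⟩, fun u => ?_, fun n => ?_⟩
  · change h0 (u : V) = (g u : V)
    exact h0x 0 u
  · obtain ⟨q, hq, hle⟩ := hnx4 n (P n)
    refine ⟨q, hq, fun x => ?_⟩
    change h0 (x : V) = q x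
    have hx : (x : V) ∈ (P (n + 1)).1.domain := hle.1 x.2
    rw [hle.2 (x := x) (y := ⟨(x : V), hx⟩) rfl]
    exact h0x (n + 1) ⟨(x : V), hx⟩

end Pool.Agent.Q294.GLW
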